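import Pool.Agent.Q289.OC.Stm

/-!
# Basic facts on matrix coefficients and Dirichlet forms
-/

set_option autoImplicit false

namespace Q289.OC

open Equiv Finset
open scoped InnerProductSpace

variable {n : ℕ} {W : Type} [NormedAddCommGroup W] [InnerProductSpace ℝ W]
  {ρ : Perm (Fin n) →* (W →ₗ[ℝ] W)}

theorem rho_mul (g h : Perm (Fin n)) (v : W) : ρ (g * h) v = ρ g (ρ h v) := by
  rw [map_mul]; rfl

theorem rho_one (v : W) : ρ 1 v = v := by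
  rw [map_one]; rfl

theorem mc_one (v : W) : mc ρ v 1 = ‖v‖ ^ 2 := by
  rw [mc, rho_one, real_inner_self_eq_norm_sq]

theorem Uni.norm (hρ : Uni ρ) (g : Perm (Fin n)) (v : W) : ‖ρ g v‖ = ‖v‖ := by
  rw [@norm_eq_sqrt_real_inner W _ _ (ρ g v), @norm_eq_sqrt_real_inner W _ _ v, hρ]

theorem Uni.adj (hρ : Uni ρ) (g : Perm (Fin n)) (v w : W) :
    ⟪ρ g v, w⟫_ℝ = ⟪v, ρ g⁻¹ w⟫_ℝ := by
  rw [← hρ g v (ρ g⁻¹ w), ← rho_mul, mul_inv_cancel, rho_one]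

theorem Uni.mc_inv (hρ : Uni ρ) (v : W) (g : Perm (Fin n)) : mc ρ v g⁻¹ = mc ρ v g := by
  rw [mc, mc, hρ.adj g, real_inner_comm]

theorem Uni.DD_eq (hρ : Uni ρ) (v : W) (x y : Fin n) :
    DD ρ v x y = 1 / 2 * ‖v - ρ (swap x y) v‖ ^ 2 := by
  rw [DD, mc_one, mc, @norm_sub_sq_real, hρ.norm, real_inner_comm]
  ring

theorem Uni.DD_nonneg (hρ : Uni ρ) (v : W) (x y : Fin n) : 0 ≤ DD ρ v x y := by
  rw [hρ.DD_eq]; positivity

theorem DD_self (v : W) (x : Fin n) : DD ρ v x x = 0 := by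
  rw [DD, swap_self]; exact sub_self _

theorem DD_comm (v : W) (x y : Fin n) : DD ρ v x y = DD ρ v y x := by
  rw [DD, DD, swap_comm]

end Q289.OC
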