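import Pool.Agent.Q289.OC.Stm

/-!
# Mixing times of finite chains, interchange process and random walk on a general vertex set
-/

set_option autoImplicit false

namespace Q289.OC.Ch

open Equiv Finset

section chain

variable {Ω : Type} [Fintype Ω] [DecidableEq Ω]

/-- generator of the chain with jump rates `r` -/
noncomputable def generator (r : Ω → Ω → ℝ) : Matrix Ω Ω ℝ :=
  Matrix.of fun x y => if x = y then -∑ z ∈ univ.erase x, r x z else r x y

/-- transition kernel at time `t` -/
noncomputable def kernel (r : Ω → Ω → ℝ) (t : ℝ) : Matrix Ω Ω ℝ :=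
  NormedSpace.exp (t • generator r)

/-- total variation distance to the uniform distribution at time `t` from the state `x` -/
noncomputable def tv (r : Ω → Ω → ℝ) (t : ℝ) (x : Ω) : ℝ :=
  (1 / 2 : ℝ) * ∑ y, |kernel r t x y - 1 / (Fintype.card Ω : ℝ)|

/-- mixing time -/
noncomputable def tmix (r : Ω → Ω → ℝ) : ENNReal :=
  sInf {s | ∃ t : ℝ, 0 ≤ t ∧ (∀ x, tv r t x ≤ 1 / 4) ∧ s = ENNReal.ofReal t}

open scoped Matrix.Norms.Operator in
theorem kernel_zero (r : Ω → Ω → ℝ) : kernel r 0 = 1 := by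
  rw [kernel, zero_smul, NormedSpace.exp_zero]

theorem mixed_pos (r : Ω → Ω → ℝ) (hc : 2 ≤ Fintype.card Ω) {t : ℝ} (ht : 0 ≤ t)
    (h : ∀ x, tv r t x ≤ 1 / 4) : 0 < t := by
  rcases ht.lt_or_eq with h0 | h0
  · exact h0
  · exfalso
    obtain ⟨x⟩ : Nonempty Ω := Fintype.card_pos_iff.mp (by omega)
    have h1 := h x
    rw [← h0, tv, kernel_zero] at h1
    have hN : (2 : ℝ) ≤ Fintype.card Ω := by exact_mod_cast hc
    have h2 : ∑ y, |(1 : Matrix Ω Ω ℝ) x y - 1 / (Fintype.card Ω : ℝ)| =
        |1 - 1 / (Fintype.card Ω : ℝ)| + (Fintype.card Ω - 1) * |0 - 1 / (Fintype.card Ω : ℝ)| := by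
      rw [← Finset.add_sum_erase univ _ (mem_univ x), Matrix.one_apply_eq]
      congr 1
      rw [Finset.sum_congr rfl fun y hy => by
        rw [Matrix.one_apply_ne (Finset.ne_of_mem_erase hy).symm], Finset.sum_const,
        Finset.card_erase_of_mem (mem_univ x), Finset.card_univ, nsmul_eq_mul, Nat.cast_sub (by omega),
        Nat.cast_one]
    rw [h2] at h1
    set N : ℝ := (Fintype.card Ω : ℝ) with hNd
    have h3 : 1 / N ≤ 1 / 2 := one_div_le_one_div_of_le (by norm_num) hN
    have h4 : 0 < 1 / N := by positivity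
    have h5 : |0 - 1 / N| = 1 / N := by rw [zero_sub, abs_neg, abs_of_pos h4]
    rw [abs_of_nonneg (by linarith), h5] at h1
    have h6 : (N - 1) * (1 / N) = 1 - 1 / N := by field_simp
    rw [h6] at h1
    linarith

variable {Ω' : Type} [Fintype Ω'] [DecidableEq Ω']

theorem generator_equiv (e : Ω ≃ Ω') (r : Ω → Ω → ℝ) (r' : Ω' → Ω' → ℝ)
    (h : ∀ x y, r' (e x) (e y) = r x y) :
    generator r' = Matrix.reindexAlgEquiv ℝ ℝ e (generator r) := by
  ext x' y'
  obtain ⟨x, rfl⟩ := e.surjective x'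
  obtain ⟨y, rfl⟩ := e.surjective y'
  rw [Matrix.coe_reindexAlgEquiv, Matrix.reindex_apply, Matrix.submatrix_apply, e.symm_apply_apply,
    e.symm_apply_apply, generator, generator, Matrix.of_apply, Matrix.of_apply, h]
  by_cases hxy : x = y
  · subst hxy
    rw [if_pos rfl, if_pos rfl]
    congr 1
    symm
    refine Finset.sum_bij (fun z _ => e z) (fun z hz => ?_) (fun a _ b _ hab => e.injective hab)
      (fun b hb => ⟨e.symm b, ?_, e.apply_symm_apply b⟩) (fun z _ => (h _ _).symm)
    · exact Finset.mem_erase.mpr ⟨fun h' => (Finset.ne_of_mem_erase hz) (e.injective h'), mem_univ _⟩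
    · refine Finset.mem_erase.mpr ⟨fun h' => (Finset.ne_of_mem_erase hb) ?_, mem_univ _⟩
      rw [← h', e.apply_symm_apply]
  · rw [if_neg hxy, if_neg fun h' => hxy (e.injective h')]

open scoped Matrix.Norms.Operator in
theorem kernel_equiv (e : Ω ≃ Ω') (r : Ω → Ω → ℝ) (r' : Ω' → Ω' → ℝ)
    (h : ∀ x y, r' (e x) (e y) = r x y) (t : ℝ) (x y : Ω) :
    kernel r' t (e x) (e y) = kernel r t x y := by
  have hcont : Continuous (Matrix.reindexAlgEquiv ℝ ℝ e : Matrix Ω Ω ℝ → Matrix Ω' Ω' ℝ) :=
    Continuous.matrix_reindex continuous_id e e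
  have h1 := NormedSpace.map_exp (Matrix.reindexAlgEquiv ℝ ℝ e) hcont (t • generator r)
  rw [map_smul, ← generator_equiv e r r' h] at h1
  have h2 : kernel r' t (e x) (e y) = kernel r t (e.symm (e x)) (e.symm (e y)) :=
    (congrFun (congrFun h1 (e x)) (e y)).symm
  rw [h2, e.symm_apply_apply, e.symm_apply_apply]

theorem tv_equiv (e : Ω ≃ Ω') (r : Ω → Ω → ℝ) (r' : Ω' → Ω' → ℝ)
    (h : ∀ x y, r' (e x) (e y) = r x y) (t : ℝ) (x : Ω) : tv r' t (e x) = tv r t x := by
  rw [tv, tv, ← Fintype.card_congr e, ← e.sum_comp]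
  congr 1
  exact Finset.sum_congr rfl fun y _ => by rw [kernel_equiv e r r' h]

end chain

section graph

variable {V : Type} [Fintype V] [DecidableEq V]

/-- jump rates of the random walk with symmetric rates `c` -/
def rwRate (c : V → V → ℝ) (x y : V) : ℝ := c x y

/-- jump rates of the interchange process with symmetric rates `c`; the states are the bijections
from `V` onto `Fin |V|`; every unordered pair `{u, v}` occurs twice in the sum -/
noncomputable def ipRate (c : V → V → ℝ) (σ τ : V ≃ Fin (Fintype.card V)) : ℝ :=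
  (1 / 2 : ℝ) * ∑ u, ∑ v, if τ = (swap u v).trans σ then c u v else 0

/-- rates of a graph: rate `1` along the edges -/
def adjRate (G : SimpleGraph V) [DecidableRel G.Adj] (x y : V) : ℝ := if G.Adj x y then 1 else 0

end graph

/-- the random walk on a connected graph mixes -/
def FinStm : Prop :=
  ∀ (V : Type) [Fintype V] [DecidableEq V] (G : SimpleGraph V) [DecidableRel G.Adj],
    G.Connected → ∃ t : ℝ, 0 ≤ t ∧ ∀ x, tv (rwRate (adjRate G)) t x ≤ 1 / 4

end Q289.OC.Ch
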