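import Pool.Agent.Q289.OC.Basic

/-!
# The comparison with random transpositions and the mixing bound
-/

set_option autoImplicit false

namespace Q289.OC

open Equiv Finset
open scoped InnerProductSpace

theorem compStm (hH : HeatStm) (hP : PosStm) (hR : RandStm) (hB : BridgeStm) : CompStm := by
  set κ₁ : ℝ := Real.exp (-2) / 4 with hκ₁
  have hκpos : 0 < κ₁ := by positivity
  have hκle : κ₁ ≤ 1 := by
    have : Real.exp (-2) ≤ 1 := Real.exp_le_one_iff.mpr (by norm_num)
    rw [hκ₁]; linarith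
  refine ⟨κ₁ ^ 3 / 1024, by positivity, ?_⟩
  intro n c t hn hc hcs ht hmix W _ _ ρ hρ v
  have hn0 : (0 : ℝ) < n := by
    have : 0 < n := by omega
    exact_mod_cast this
  obtain ⟨hMM, hG⟩ := hH n c t hn hc hcs ht hmix
  obtain ⟨G, hKG, hGK, hGs, hG0, hGp⟩ := hP n _ hMM
  obtain ⟨hrow, hlow⟩ := hG G hKG hGs hG0
  set a : ℝ := κ₁ / 8 with ha
  have ha0 : 0 < a := by positivity
  have hθ : (0 : ℝ) < 1 / t := by positivity
  have hGt : ∀ x, G x x ≤ t := fun x => by
    rw [← hrow x]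
    exact Finset.single_le_sum (f := fun y => G x y) (fun y _ => hG0 x y) (mem_univ x)
  have ha1 : ∀ x, a * (1 / t) * G x x ≤ 1 := by
    intro x
    have h1 : (1 / t) * G x x ≤ 1 := by
      rw [div_mul_eq_mul_div, one_mul, div_le_one ht]; exact hGt x
    have h2 : 0 ≤ (1 / t) * G x x := mul_nonneg hθ.le (hG0 x x)
    have h3 : a ≤ 1 := by rw [ha]; linarith
    calc a * (1 / t) * G x x = a * ((1 / t) * G x x) := by ring
      _ ≤ 1 * 1 := mul_le_mul h3 h1 h2 (by norm_num)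
      _ = 1 := by norm_num
  have h1 := hR n _ G (1 / t) a hMM hKG hGs hG0 hGp hθ ha0 ha1 W ρ hρ v
  have h2 : ∑ x, ∑ y, -((1 / t : ℝ) • (1 : Matrix (Fin n) (Fin n) ℝ) - rwGen c) x y * DD ρ v x y =
      ∑ x, ∑ y, c x y * DD ρ v x y := by
    refine Finset.sum_congr rfl fun x _ => Finset.sum_congr rfl fun y _ => ?_
    by_cases hxy : x = y
    · subst hxy; rw [DD_self]; ring
    · congr 1
      rw [Matrix.sub_apply, Matrix.smul_apply, Matrix.one_apply_ne hxy]
      simp [rwGen, hxy]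
  rw [h2] at h1
  set h : Fin n → Fin n → ℝ := fun x y => (1 / t) * ∑ z, G x z * G z y with hh
  have hh0 : ∀ x y, 0 ≤ h x y := fun x y =>
    mul_nonneg hθ.le (Finset.sum_nonneg fun z _ => mul_nonneg (hG0 _ _) (hG0 _ _))
  have hhs : ∀ x y, h x y = h y x := by
    intro x y
    simp only [hh]
    congr 1
    refine Finset.sum_congr rfl fun z _ => ?_
    rw [hGs x z, hGs z y]; ring
  have hhr : ∀ x, ∑ y, h x y ≤ t := by
    intro x
    refine le_of_eq ?_
    simp only [hh]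
    rw [← Finset.mul_sum, Finset.sum_comm]
    simp_rw [← Finset.mul_sum, hrow, ← Finset.sum_mul, hrow]
    field_simp
  have h3 := hB n W ρ hρ v h t ht hh0 hhs hhr
  have h4 : ∀ x y, (1 / t) ^ 2 * a ^ 2 * (t / n * (κ₁ / 2)) *
      ((if h x y ≤ 4 * t / n then 1 else 0) * DD ρ v x y) ≤
      a ^ 2 * (1 / t) ^ 2 * max 0 (G x y - a * (1 / t) * ∑ z, G x z * G z y) * DD ρ v x y := by
    intro x y
    have hD := hρ.DD_nonneg v x y
    by_cases hg : h x y ≤ 4 * t / n
    · rw [if_pos hg, one_mul]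
      have h5 : t / n * (κ₁ / 2) ≤ G x y - a * (1 / t) * ∑ z, G x z * G z y := by
        have h6 := hlow x y
        have h7 : a * (1 / t) * ∑ z, G x z * G z y = a * h x y := by simp only [hh]; ring
        rw [h7]
        have h8 : a * h x y ≤ a * (4 * t / n) := mul_le_mul_of_nonneg_left hg ha0.le
        have h9 : a * (4 * t / n) = κ₁ / 2 * (t / n) := by rw [ha]; ring
        rw [h9] at h8
        have h10 : Real.exp (-2) / 4 * (t / n) = κ₁ * (t / n) := rfl
        rw [h10] at h6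
        linarith
      have h6 := h5.trans (le_max_right 0 _)
      refine mul_le_mul_of_nonneg_right ?_ hD
      rw [mul_comm ((1 / t) ^ 2)]
      exact mul_le_mul_of_nonneg_left h6 (by positivity)
    · rw [if_neg hg, zero_mul, mul_zero]
      exact mul_nonneg (mul_nonneg (by positivity) (le_max_left _ _)) hD
  have h5 : (1 / t) ^ 2 * a ^ 2 * (t / n * (κ₁ / 2)) *
      ∑ x, ∑ y, ((if h x y ≤ 4 * t / n then 1 else 0) * DD ρ v x y) ≤
      ∑ x, ∑ y, c x y * DD ρ v x y := by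
    refine le_trans ?_ h1
    rw [Finset.mul_sum]
    refine Finset.sum_le_sum fun x _ => ?_
    rw [Finset.mul_sum]
    exact Finset.sum_le_sum fun y _ => h4 x y
  refine le_trans ?_ h5
  have h6 : 0 ≤ (1 / t) ^ 2 * a ^ 2 * (t / n * (κ₁ / 2)) / 8 := by positivity
  have h7 := mul_le_mul_of_nonneg_left h3 h6
  calc κ₁ ^ 3 / 1024 / t * (1 / n * ∑ x, ∑ y, DD ρ v x y)
      = (1 / t) ^ 2 * a ^ 2 * (t / n * (κ₁ / 2)) / 8 * ∑ x, ∑ y, DD ρ v x y := by
        rw [ha]; field_simp; ring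
    _ ≤ _ := h7
    _ = _ := by ring

theorem exp_fifth : Real.exp (1 / 5) ≤ 5 / 4 := by
  have h := Real.exp_bound_div_one_sub_of_interval (x := (1 / 5 : ℝ)) (by norm_num) (by norm_num)
  linarith

theorem mixStm (hC : CompStm) (hL : LevStm) (hT : TVStm) : MixStm := by
  obtain ⟨κ, hκ, hcomp⟩ := hC
  refine ⟨12 / κ, by positivity, ?_⟩
  intro n c t hn hc hcs ht hmix σ
  have hn2 : (2 : ℝ) ≤ n := by exact_mod_cast hn
  have hn0 : (0 : ℝ) < n := by linarith
  have hlog : 0 < Real.log n := Real.log_pos (by linarith)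
  set s : ℝ := 12 / κ * t * Real.log n with hs
  have hs0 : 0 ≤ s := by positivity
  have h1 := hT n c s hc hcs hs0 σ
  have h2 := hL n c (κ / t) (2 * s) (1 / (5 * n ^ 2)) hn hcs (by positivity) (by positivity)
    (by positivity) (by
      rw [mul_one_div, div_le_iff₀ (by positivity)]
      nlinarith) (by
      have e : 2 * s * (κ / t) / 4 = 6 * Real.log n := by
        rw [hs]; field_simp; ring
      rw [e, Real.exp_neg]
      have e2 : Real.exp (6 * Real.log n) = (n : ℝ) ^ 6 := by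
        rw [show (6 : ℝ) * Real.log n = ((6 : ℕ) : ℝ) * Real.log n by norm_num, Real.exp_nat_mul,
          Real.exp_log hn0]
      rw [e2, div_div, inv_eq_one_div]
      refine one_div_le_one_div_of_le (by positivity) ?_
      have h4 : (16 : ℝ) ≤ (n : ℝ) ^ 4 := by
        have : (2 : ℝ) ^ 4 ≤ (n : ℝ) ^ 4 := pow_le_pow_left₀ (by norm_num) hn2 4
        linarith
      have h5 : (0 : ℝ) ≤ (n : ℝ) ^ 2 := by positivity
      calc 5 * (n : ℝ) ^ 2 * 2 ≤ 16 * (n : ℝ) ^ 2 := by nlinarith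
        _ ≤ (n : ℝ) ^ 4 * (n : ℝ) ^ 2 := mul_le_mul_of_nonneg_right h4 h5
        _ = (n : ℝ) ^ 6 := by ring)
    (fun W _ _ ρ hρ v => hcomp n c t hn hc hcs ht hmix W ρ hρ v) σ
  have e3 : (n : ℝ) ^ 2 * (1 / (5 * n ^ 2)) = 1 / 5 := by field_simp
  rw [e3] at h2
  have h3 := h2.trans exp_fifth
  have h4 : ((1 / 2 : ℝ) * ∑ τ, |NormedSpace.exp (s • ipGen c) σ τ - 1 / (n.factorial : ℝ)|) ^ 2 ≤
      (1 / 4) ^ 2 := by
    refine h1.trans ?_
    linarith
  exact (pow_le_pow_iff_left₀ (by positivity) (by norm_num) (by norm_num)).mp h4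

end Q289.OC
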