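import Mathlib

/-!
# Interchange process versus random walk: definitions

`Uni ρ`: orthogonal representation of the symmetric group on a real inner product space.
`mc ρ v`: the matrix coefficient of `v`; `DD ρ v x y`: the Dirichlet form of the transposition
`(x y)`. `rwGen c`, `ipGen c`: generators of the random walk and of the interchange process with
(symmetric) rates `c`; kernels are matrix exponentials.
-/

set_option autoImplicit false

namespace Q289.OC

open Equiv Finset
open scoped InnerProductSpace

section rep

variable {n : ℕ} {W : Type} [NormedAddCommGroup W] [InnerProductSpace ℝ W]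

/-- orthogonal representations (the same as `RT.Unit` of the transposition library) -/
def Uni (ρ : Perm (Fin n) →* (W →ₗ[ℝ] W)) : Prop :=
  ∀ g v w, ⟪ρ g v, ρ g w⟫_ℝ = ⟪v, w⟫_ℝ

/-- diagonal matrix coefficient -/
noncomputable def mc (ρ : Perm (Fin n) →* (W →ₗ[ℝ] W)) (v : W) (g : Perm (Fin n)) : ℝ :=
  ⟪ρ g v, v⟫_ℝ

/-- the Dirichlet form of the transposition `(x y)` -/
noncomputable def DD (ρ : Perm (Fin n) →* (W →ₗ[ℝ] W)) (v : W) (x y : Fin n) : ℝ :=
  mc ρ v 1 - mc ρ v (swap x y)

end rep

variable {n : ℕ}

/-- the value of a function on the group at the element `3 N_V - N_A` of the group algebra of four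
points (`V` the Klein group, `A` the alternating group), for functions with `φ g⁻¹ = φ g` -/
def QQ (φ : Perm (Fin n) → ℝ) (i j k l : Fin n) : ℝ :=
  2 * φ 1 +
  2 * (φ (swap i j * swap k l) + φ (swap i k * swap j l) + φ (swap i l * swap j k)) -
  2 * (φ (swap i j * swap j k) + φ (swap i j * swap j l) + φ (swap i k * swap k l) +
    φ (swap j k * swap k l))

/-- four distinct points -/
def dist4 (i j k l : Fin n) : Prop := i ≠ j ∧ i ≠ k ∧ i ≠ l ∧ j ≠ k ∧ j ≠ l ∧ k ≠ l

instance (i j k l : Fin n) : Decidable (dist4 i j k l) := by unfold dist4; infer_instance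

/-- symmetric matrices with nonpositive entries off the diagonal and positive row sums -/
structure MM (K : Matrix (Fin n) (Fin n) ℝ) : Prop where
  symm : ∀ x y, K x y = K y x
  off : ∀ x y, x ≠ y → K x y ≤ 0
  row : ∀ x, 0 < ∑ y, K x y

/-- generator of the random walk with rates `c` -/
noncomputable def rwGen (c : Fin n → Fin n → ℝ) : Matrix (Fin n) (Fin n) ℝ :=
  Matrix.of fun x y => if x = y then -∑ z ∈ univ.erase x, c x z else c x y

/-- generator of the interchange process with symmetric rates `c`: for every pair `u, v`, at rate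
`c u v`, the contents of the positions `u` and `v` are exchanged (each pair is counted twice in the
sum, whence the factor `1/2`) -/
noncomputable def ipGen (c : Fin n → Fin n → ℝ) : Matrix (Perm (Fin n)) (Perm (Fin n)) ℝ :=
  Matrix.of fun σ τ => (1 / 2 : ℝ) * ∑ u, ∑ v,
    c u v * ((if τ = σ * swap u v then 1 else 0) - (if τ = σ then 1 else 0))

/-- probability of the set `S` when `x` is included with probability `q x`, independently -/
def wt (q : Fin n → ℝ) (S : Finset (Fin n)) : ℝ := (∏ x ∈ S, q x) * ∏ x ∈ Sᶜ, (1 - q x)

end Q289.OC
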