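import Pool.Agent.Q289.OC.Trans
import Pool.Agent.Q224.OC.Lev

/-!
# The comparison of Dirichlet forms for functions of the labelling
-/

set_option autoImplicit false

namespace Q289.OC.Ch

open Equiv Finset Pool.Agent.Results.MP_c0051b_pr.TranspositionLpCutoff
open RT (L2)

theorem DD_rr {n : ℕ} (f : L2 n) (u v : Fin n) :
    DD (Pool.Agent.Q224.OC.rr n) f u v = 1 / 2 * ∑ σ, (f (σ * swap u v) - f σ) ^ 2 := by
  have hρ : Uni (Pool.Agent.Q224.OC.rr n) := Pool.Agent.Q224.OC.unit_rr n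
  rw [hρ.DD_eq, EuclideanSpace.norm_sq_eq]
  congr 1
  refine Finset.sum_congr rfl fun σ _ => ?_
  rw [PiLp.sub_apply, Pool.Agent.Q224.OC.rr_apply, Real.norm_eq_abs, sq_abs]
  ring

theorem dir_le (hC : CompStm) : ∃ C : ℝ, 0 < C ∧ ∀ (V : Type) [Fintype V] [DecidableEq V]
    (c : V → V → ℝ), (∀ x y, 0 ≤ c x y) → (∀ x y, c x y = c y x) → 2 ≤ Fintype.card V →
    ∀ t : ℝ, 0 ≤ t → (∀ x, tv (rwRate c) t x ≤ 1 / 4) →
    ∀ f : (V ≃ Fin (Fintype.card V)) → ℝ,
      ∑ u, ∑ v, ∑ σ, (f ((swap u v).trans σ) - f σ) ^ 2 ≤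
        C * t * Fintype.card V * ∑ u, ∑ v, c u v * ∑ σ, (f ((swap u v).trans σ) - f σ) ^ 2 := by
  obtain ⟨κ, hκ, hC⟩ := hC
  refine ⟨1 / κ, by positivity, ?_⟩
  intro V _ _ c hc hcs hV t ht hmix f
  have ht0 := mixed_pos (rwRate c) hV ht hmix
  let e : V ≃ Fin (Fintype.card V) := Fintype.equivFin V
  set c' : Fin (Fintype.card V) → Fin (Fintype.card V) → ℝ :=
    fun i j => c (e.symm i) (e.symm j) with hc'
  have h1 : ∀ x, (1 / 2 : ℝ) * ∑ y, |NormedSpace.exp (t • rwGen c') x y -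
      1 / ((Fintype.card V : ℕ) : ℝ)| ≤ 1 / 4 := by
    intro x'
    obtain ⟨x, rfl⟩ := e.surjective x'
    have h2 := tv_equiv e (rwRate c) (rwRate c') (fun x y => by
      simp only [rwRate, hc', e.symm_apply_apply]) t x
    have h3 := hmix x
    rw [← h2, tv, Fintype.card_fin] at h3
    exact h3
  let F : L2 (Fintype.card V) := WithLp.toLp 2 fun σ => f ((tr e).symm σ)
  have h2 := hC (Fintype.card V) c' t hV (fun x y => hc _ _) (fun x y => hcs _ _) ht0 h1 _
    (Pool.Agent.Q224.OC.rr (Fintype.card V)) (Pool.Agent.Q224.OC.unit_rr _) F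
  have h3 : ∀ u v : V, DD (Pool.Agent.Q224.OC.rr (Fintype.card V)) F (e u) (e v) =
      1 / 2 * ∑ σ, (f ((swap u v).trans σ) - f σ) ^ 2 := by
    intro u v
    rw [DD_rr, ← (tr e).sum_comp]
    congr 1
    refine Finset.sum_congr rfl fun σ _ => ?_
    have h4 : tr e σ * swap (e u) (e v) = tr e ((swap u v).trans σ) := by
      ext x
      congr 1
      show σ (e.symm (swap (e u) (e v) x)) = σ (swap u v (e.symm x))
      congr 1
      rw [Equiv.symm_apply_eq, e.injective.map_swap, e.apply_symm_apply]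
    rw [h4]
    show (f ((tr e).symm (tr e ((swap u v).trans σ))) - f ((tr e).symm (tr e σ))) ^ 2 = _
    rw [Equiv.symm_apply_apply, Equiv.symm_apply_apply]
  have h5 : ∑ x, ∑ y, DD (Pool.Agent.Q224.OC.rr (Fintype.card V)) F x y =
      1 / 2 * ∑ u, ∑ v, ∑ σ, (f ((swap u v).trans σ) - f σ) ^ 2 := by
    rw [← e.sum_comp, Finset.mul_sum]
    refine Finset.sum_congr rfl fun u _ => ?_
    rw [← e.sum_comp, Finset.mul_sum]
    exact Finset.sum_congr rfl fun v _ => h3 u v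
  have h6 : ∑ x, ∑ y, c' x y * DD (Pool.Agent.Q224.OC.rr (Fintype.card V)) F x y =
      1 / 2 * ∑ u, ∑ v, c u v * ∑ σ, (f ((swap u v).trans σ) - f σ) ^ 2 := by
    rw [← e.sum_comp, Finset.mul_sum]
    refine Finset.sum_congr rfl fun u _ => ?_
    rw [← e.sum_comp, Finset.mul_sum]
    refine Finset.sum_congr rfl fun v _ => ?_
    rw [h3 u v]
    simp only [hc', e.symm_apply_apply]
    ring
  rw [h5, h6] at h2
  have hn : (0 : ℝ) < ((Fintype.card V : ℕ) : ℝ) := by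
    have : 0 < Fintype.card V := by omega
    exact_mod_cast this
  set X := ∑ u, ∑ v, ∑ σ, (f ((swap u v).trans σ) - f σ) ^ 2
  set Y := ∑ u, ∑ v, c u v * ∑ σ, (f ((swap u v).trans σ) - f σ) ^ 2
  have h7 : κ / t * (1 / (Fintype.card V : ℝ)) * X ≤ Y := by linarith
  have h8 : 0 ≤ 1 / κ * t * Fintype.card V := by positivity
  have h9 := mul_le_mul_of_nonneg_left h7 h8
  have h10 : 1 / κ * t * (Fintype.card V : ℝ) * (κ / t * (1 / (Fintype.card V : ℝ)) * X) = X := by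
    field_simp
  rw [h10] at h9
  exact h9

end Q289.OC.Ch
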