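import Pool.Agent.Q289.OC.Five3
import Pool.Agent.Q289.OC.Comp
import Pool.Agent.Q289.OC.Dir
import Pool.Agent.Q98.OC.TV
import Pool.Agent.Q98.OC.Oct
import Pool.Agent.Q137.OC.Elim
import Pool.Agent.Q137.OC.Trace
import Pool.Agent.Q137.OC.Rand
import Pool.Agent.Q137.OC.Bridge
import Pool.Agent.Q137.OC.Pos
import Pool.Agent.Q224.OC.Lev

/-!
# Assembly
-/

set_option autoImplicit false

namespace Q289.OC

theorem octStm : OctStm := Q98.OC.octStm fiveStm

theorem traceStm : TraceStm := Q137.OC.traceStm (Q137.OC.elimStm octStm)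

theorem randStm : RandStm := Q137.OC.randStm traceStm Q137.OC.wtStm

theorem compStm' : CompStm :=
  compStm Pool.Agent.Q224.OC.heat Q137.OC.posStm randStm (Q137.OC.bridgeStm octStm)

theorem mixStm' : MixStm := mixStm compStm' Pool.Agent.Q224.OC.lev Q98.OC.tvStm

end Q289.OC
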