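import Pool.Agent.Q289.OC.Basic

/-!
# The inequality for five points
-/

set_option autoImplicit false

namespace Q289.OC

open Equiv Finset
open scoped InnerProductSpace

section abs

variable {Γ : Type} [Group Γ] [DecidableEq Γ] {W : Type} [NormedAddCommGroup W]
  [InnerProductSpace ℝ W] (ρ : Γ →* (W →ₗ[ℝ] W))

/-- sum over a finite set of group elements -/
def NS (S : Finset Γ) : W →ₗ[ℝ] W := ∑ g ∈ S, ρ g

/-- finite subgroups -/
structure Cl (S : Finset Γ) : Prop where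
  one : 1 ∈ S
  mul : ∀ g ∈ S, ∀ h ∈ S, g * h ∈ S
  inv : ∀ g ∈ S, g⁻¹ ∈ S

variable {ρ}

theorem NS_apply (S : Finset Γ) (v : W) : NS ρ S v = ∑ g ∈ S, ρ g v := by
  rw [NS, LinearMap.sum_apply]

theorem ab_mul (g h : Γ) (v : W) : ρ (g * h) v = ρ g (ρ h v) := by rw [map_mul]; rfl

theorem NS_right {S : Finset Γ} (hS : Cl S) {h : Γ} (hh : h ∈ S) (v : W) :
    NS ρ S (ρ h v) = NS ρ S v := by
  rw [NS_apply, NS_apply]
  refine Finset.sum_bij (fun g _ => g * h) (fun g hg => hS.mul g hg h hh)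
    (fun a _ b _ hab => mul_right_cancel hab) (fun b hb => ⟨b * h⁻¹, hS.mul b hb _ (hS.inv h hh), by
      simp⟩) (fun g _ => (ab_mul g h v).symm)

theorem NS_left {S : Finset Γ} (hS : Cl S) {h : Γ} (hh : h ∈ S) (v : W) :
    ρ h (NS ρ S v) = NS ρ S v := by
  rw [NS_apply, map_sum]
  refine Finset.sum_bij (fun g _ => h * g) (fun g hg => hS.mul h hh g hg)
    (fun a _ b _ hab => mul_left_cancel hab) (fun b hb => ⟨h⁻¹ * b, hS.mul _ (hS.inv h hh) b hb, by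
      simp⟩) (fun g _ => (ab_mul h g v).symm)

theorem NS_NS {V A : Finset Γ} (hA : Cl A) (h : V ⊆ A) (v : W) :
    NS ρ A (NS ρ V v) = (V.card : ℝ) • NS ρ A v := by
  rw [NS_apply V, map_sum, Finset.sum_congr rfl fun g hg => NS_right hA (h hg) v,
    Finset.sum_const, ← Nat.cast_smul_eq_nsmul ℝ]

theorem NS_NS' {V A : Finset Γ} (hA : Cl A) (h : V ⊆ A) (v : W) :
    NS ρ V (NS ρ A v) = (V.card : ℝ) • NS ρ A v := by
  rw [NS_apply V, Finset.sum_congr rfl fun g hg => NS_left hA (h hg) v,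
    Finset.sum_const, ← Nat.cast_smul_eq_nsmul ℝ]

theorem NS_symm (hρ : ∀ g v w, ⟪ρ g v, ρ g w⟫_ℝ = ⟪v, w⟫_ℝ) {S : Finset Γ} (hS : Cl S) (v w : W) :
    ⟪NS ρ S v, w⟫_ℝ = ⟪v, NS ρ S w⟫_ℝ := by
  rw [NS_apply, NS_apply, sum_inner, inner_sum]
  refine Finset.sum_bij (fun g _ => g⁻¹) (fun g hg => hS.inv g hg)
    (fun a _ b _ hab => inv_injective hab) (fun b hb => ⟨b⁻¹, hS.inv b hb, inv_inv b⟩)
    (fun g _ => ?_)
  rw [← hρ g v (ρ g⁻¹ w), ← ab_mul, mul_inv_cancel, map_one]; rfl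

/-- `3 N_V - N_A` -/
def EE (ρ : Γ →* (W →ₗ[ℝ] W)) (V A : Finset Γ) : W →ₗ[ℝ] W := (3 : ℝ) • NS ρ V - NS ρ A

theorem EE_apply (V A : Finset Γ) (v : W) : EE ρ V A v = (3 : ℝ) • NS ρ V v - NS ρ A v := by
  rw [EE]; rfl

theorem EE_symm (hρ : ∀ g v w, ⟪ρ g v, ρ g w⟫_ℝ = ⟪v, w⟫_ℝ) {V A : Finset Γ} (hV : Cl V)
    (hA : Cl A) (v w : W) : ⟪EE ρ V A v, w⟫_ℝ = ⟪v, EE ρ V A w⟫_ℝ := by
  rw [EE_apply, EE_apply, inner_sub_left, inner_sub_right, real_inner_smul_left,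
    real_inner_smul_right, NS_symm hρ hV, NS_symm hρ hA]

theorem EE_inv {V A : Finset Γ} (hV : Cl V) (hA : Cl A) (h : V ⊆ A) {g : Γ} (hg : g ∈ V) (v : W) :
    ρ g (EE ρ V A v) = EE ρ V A v := by
  rw [EE_apply, map_sub, map_smul, NS_left hV hg, NS_left hA (h hg)]

theorem NA_EE {V A : Finset Γ} (hA : Cl A) (h : V ⊆ A) (hc : A.card = 3 * V.card) (v : W) :
    NS ρ A (EE ρ V A v) = 0 := by
  rw [EE_apply, map_sub, map_smul, NS_NS hA h, NS_NS hA (Finset.Subset.refl A), hc, smul_smul,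
    ← sub_smul]
  push_cast
  rw [sub_self, zero_smul]

theorem NV_EE {V A : Finset Γ} (hV : Cl V) (hA : Cl A) (h : V ⊆ A) (v : W) :
    NS ρ V (EE ρ V A v) = (V.card : ℝ) • EE ρ V A v := by
  rw [NS_apply, Finset.sum_congr rfl fun g hg => EE_inv hV hA h hg v, Finset.sum_const,
    ← Nat.cast_smul_eq_nsmul ℝ]

theorem EE_EE {V A : Finset Γ} (hV : Cl V) (hA : Cl A) (h : V ⊆ A) (hc : A.card = 3 * V.card)
    (v : W) : EE ρ V A (EE ρ V A v) = (A.card : ℝ) • EE ρ V A v := by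
  conv_lhs => rw [EE_apply]
  rw [NA_EE hA h hc, NV_EE hV hA h, smul_smul, sub_zero, hc]
  push_cast
  rfl

theorem norm_EE (hρ : ∀ g v w, ⟪ρ g v, ρ g w⟫_ℝ = ⟪v, w⟫_ℝ) {V A : Finset Γ} (hV : Cl V)
    (hA : Cl A) (h : V ⊆ A) (hc : A.card = 3 * V.card) (v : W) :
    ‖EE ρ V A v‖ ^ 2 = A.card * ⟪EE ρ V A v, v⟫_ℝ := by
  rw [← real_inner_self_eq_norm_sq, ← EE_symm hρ hV hA, EE_EE hV hA h hc, real_inner_smul_left]

theorem EE_nonneg (hρ : ∀ g v w, ⟪ρ g v, ρ g w⟫_ℝ = ⟪v, w⟫_ℝ) {V A : Finset Γ} (hV : Cl V)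
    (hA : Cl A) (h : V ⊆ A) (hc : A.card = 3 * V.card) (v : W) :
    0 ≤ ⟪EE ρ V A v, v⟫_ℝ := by
  have h1 := norm_EE hρ hV hA h hc v
  have h2 : (0 : ℝ) < A.card := by
    exact_mod_cast Finset.card_pos.mpr ⟨1, hA.one⟩
  have h3 : 0 ≤ ‖EE ρ V A v‖ ^ 2 := by positivity
  rw [h1] at h3
  exact nonneg_of_mul_nonneg_right h3 h2

theorem NS_prod {C V A : Finset Γ} (h1 : (C ×ˢ V).image (fun p => p.1 * p.2) = A)
    (h2 : A.card = (C ×ˢ V).card) (w : W) : NS ρ A w = NS ρ C (NS ρ V w) := by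
  rw [← h1] at h2
  have h3 := Finset.card_image_iff.mp h2
  rw [NS_apply, ← h1, Finset.sum_image h3, Finset.sum_product, NS_apply C]
  refine Finset.sum_congr rfl fun c _ => ?_
  rw [NS_apply, map_sum]
  exact Finset.sum_congr rfl fun v _ => ab_mul c v w

theorem five_abs (hρ : ∀ g v w, ⟪ρ g v, ρ g w⟫_ℝ = ⟪v, w⟫_ℝ) {V A : Finset Γ} (hV : Cl V)
    (hA : Cl A) (h : V ⊆ A) (hc : A.card = 3 * V.card) {ι : Type} (I : Finset ι)
    (V' A' : ι → Finset Γ) (hV' : ∀ i ∈ I, Cl (V' i)) (hA' : ∀ i ∈ I, Cl (A' i))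
    (h' : ∀ i ∈ I, V' i ⊆ A' i) (hc' : ∀ i ∈ I, (A' i).card = 3 * (V' i).card)
    (hw : ∀ w : W, (∀ g ∈ V, ρ g w = w) → NS ρ A w = 0 →
      ∑ i ∈ I, EE ρ (V' i) (A' i) w = (A.card : ℝ) • w) (v : W) :
    ⟪EE ρ V A v, v⟫_ℝ ≤ ∑ i ∈ I, ⟪EE ρ (V' i) (A' i) v, v⟫_ℝ := by
  set w := EE ρ V A v with hwd
  set N : ℝ := (A.card : ℝ) with hN
  have hN0 : 0 < N := by
    rw [hN]; exact_mod_cast Finset.card_pos.mpr ⟨1, hA.one⟩
  have h1 := hw w (fun g hg => EE_inv hV hA h hg v) (NA_EE hA h hc v)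
  have h2 : ‖w‖ ^ 2 = N * ⟪w, v⟫_ℝ := norm_EE hρ hV hA h hc v
  have h3 : ∀ i ∈ I, 2 * N * ⟪EE ρ (V' i) (A' i) w, v⟫_ℝ ≤
      ⟪EE ρ (V' i) (A' i) w, w⟫_ℝ + N ^ 2 * ⟪EE ρ (V' i) (A' i) v, v⟫_ℝ := by
    intro i hi
    have h4 := EE_nonneg hρ (hV' i hi) (hA' i hi) (h' i hi) (hc' i hi) (w - N • v)
    have h5 : ⟪EE ρ (V' i) (A' i) v, w⟫_ℝ = ⟪EE ρ (V' i) (A' i) w, v⟫_ℝ := by
      rw [EE_symm hρ (hV' i hi) (hA' i hi), real_inner_comm]
    rw [map_sub, map_smul, inner_sub_left, inner_sub_right, inner_sub_right,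
      real_inner_smul_left, real_inner_smul_left, real_inner_smul_right, real_inner_smul_right,
      h5] at h4
    nlinarith
  have h4 := Finset.sum_le_sum h3
  rw [← Finset.mul_sum, ← sum_inner, h1, Finset.sum_add_distrib, ← Finset.mul_sum, ← sum_inner, h1,
    real_inner_smul_left, real_inner_smul_left, real_inner_self_eq_norm_sq, h2] at h4
  have h5 : N ^ 2 * ⟪w, v⟫_ℝ ≤ N ^ 2 * ∑ i ∈ I, ⟪EE ρ (V' i) (A' i) v, v⟫_ℝ := by nlinarith
  exact le_of_mul_le_mul_left h5 (by positivity)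

end abs

/-- Klein group of four points -/
def VV {m : ℕ} (a b c d : Fin m) : Finset (Perm (Fin m)) :=
  {1, swap a b * swap c d, swap a c * swap b d, swap a d * swap b c}

/-- alternating group of four points -/
def AA {m : ℕ} (a b c d : Fin m) : Finset (Perm (Fin m)) :=
  {1, swap a b * swap c d, swap a c * swap b d, swap a d * swap b c,
    swap a b * swap b c, swap b c * swap a b, swap a b * swap b d, swap b d * swap a b,
    swap a c * swap c d, swap c d * swap a c, swap b c * swap c d, swap c d * swap b c}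

end Q289.OC
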