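import Pool.Agent.Q289.OC.Five

/-!
# The inequality for five points: the group of five points
-/

set_option autoImplicit false

namespace Q289.OC

open Equiv Finset
open scoped InnerProductSpace

variable {W : Type} [NormedAddCommGroup W] [InnerProductSpace ℝ W]

theorem clA4 : Cl (AA (0 : Fin 4) 1 2 3) := ⟨by decide +kernel, by decide +kernel, by decide +kernel⟩
theorem clV4 : Cl (VV (0 : Fin 4) 1 2 3) := ⟨by decide +kernel, by decide +kernel, by decide +kernel⟩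

theorem clA0 : Cl (AA (1 : Fin 5) 2 3 4) := ⟨by decide +kernel, by decide +kernel, by decide +kernel⟩
theorem clV0 : Cl (VV (1 : Fin 5) 2 3 4) := ⟨by decide +kernel, by decide +kernel, by decide +kernel⟩

/-- the four Klein groups -/
def V5 : Fin 4 → Finset (Perm (Fin 5)) :=
  ![VV 0 2 3 4, VV 1 0 3 4, VV 1 2 0 4, VV 1 2 3 0]

/-- the four alternating groups -/
def A5 : Fin 4 → Finset (Perm (Fin 5)) :=
  ![AA 0 2 3 4, AA 1 0 3 4, AA 1 2 0 4, AA 1 2 3 0]

/-- the four cyclic groups of order three (fixing `0` and `i + 1`) -/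
def C5 : Fin 4 → Finset (Perm (Fin 5)) :=
  ![{1, swap 2 3 * swap 3 4, swap 3 4 * swap 2 3}, {1, swap 1 3 * swap 3 4, swap 3 4 * swap 1 3},
    {1, swap 1 2 * swap 2 4, swap 2 4 * swap 1 2}, {1, swap 1 2 * swap 2 3, swap 2 3 * swap 1 2}]

/-- a double transposition containing `(0 (i+1))` -/
def g5 : Fin 4 → Perm (Fin 5) :=
  ![swap 0 1 * swap 2 3, swap 0 2 * swap 1 3, swap 0 3 * swap 1 2, swap 0 4 * swap 1 2]

/-- the double transpositions containing `(0 (i+1))` -/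
def T5 : Fin 4 → Finset (Perm (Fin 5)) :=
  ![{swap 0 1 * swap 2 3, swap 0 1 * swap 2 4, swap 0 1 * swap 3 4},
    {swap 0 2 * swap 1 3, swap 0 2 * swap 1 4, swap 0 2 * swap 3 4},
    {swap 0 3 * swap 1 2, swap 0 3 * swap 1 4, swap 0 3 * swap 2 4},
    {swap 0 4 * swap 1 2, swap 0 4 * swap 1 3, swap 0 4 * swap 2 3}]

theorem cl5A (i : Fin 4) : Cl (A5 i) := by
  revert i
  have h : ∀ i : Fin 4, 1 ∈ A5 i ∧ (∀ g ∈ A5 i, ∀ h ∈ A5 i, g * h ∈ A5 i) ∧
    (∀ g ∈ A5 i, g⁻¹ ∈ A5 i) := by decide +kernel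
  exact fun i => ⟨(h i).1, (h i).2.1, (h i).2.2⟩

theorem cl5V (i : Fin 4) : Cl (V5 i) := by
  revert i
  have h : ∀ i : Fin 4, 1 ∈ V5 i ∧ (∀ g ∈ V5 i, ∀ h ∈ V5 i, g * h ∈ V5 i) ∧
    (∀ g ∈ V5 i, g⁻¹ ∈ V5 i) := by decide +kernel
  exact fun i => ⟨(h i).1, (h i).2.1, (h i).2.2⟩

theorem sub5 : ∀ i : Fin 4, V5 i ⊆ A5 i := by decide +kernel
theorem card5A : ∀ i : Fin 4, (A5 i).card = 3 * (V5 i).card := by decide +kernel
theorem card5V : ∀ i : Fin 4, (V5 i).card = 4 := by decide +kernel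

theorem prod0 : ∀ i : Fin 4, ((C5 i) ×ˢ VV (1 : Fin 5) 2 3 4).image (fun p => p.1 * p.2) =
    AA 1 2 3 4 := by decide +kernel
theorem prod0c : ∀ i : Fin 4, (AA (1 : Fin 5) 2 3 4).card = ((C5 i) ×ˢ VV (1 : Fin 5) 2 3 4).card := by
  decide +kernel
theorem prod1 : ∀ i : Fin 4, ((V5 i) ×ˢ (C5 i)).image (fun p => p.1 * p.2) = A5 i := by
  decide +kernel
theorem prod1c : ∀ i : Fin 4, (A5 i).card = ((V5 i) ×ˢ (C5 i)).card := by decide +kernel
theorem prod2 : ∀ i : Fin 4, (({g5 i} : Finset (Perm (Fin 5))) ×ˢ (C5 i)).image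
    (fun p => p.1 * p.2) = T5 i := by decide +kernel
theorem prod2c : ∀ i : Fin 4, (T5 i).card = (({g5 i} : Finset (Perm (Fin 5))) ×ˢ (C5 i)).card := by
  decide +kernel

theorem uni5 : univ.biUnion T5 = univ.biUnion fun i => (V5 i).erase 1 := by decide +kernel

theorem disjT : ∀ i j : Fin 4, i ≠ j → Disjoint (T5 i) (T5 j) := by decide +kernel
theorem disjV : ∀ i j : Fin 4, i ≠ j → Disjoint ((V5 i).erase 1) ((V5 j).erase 1) := by
  decide +kernel

theorem five_id (ρ : Perm (Fin 5) →* (W →ₗ[ℝ] W)) (w : W)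
    (hV : ∀ g ∈ VV (1 : Fin 5) 2 3 4, ρ g w = w) (hA : NS ρ (AA (1 : Fin 5) 2 3 4) w = 0) :
    ∑ i, EE ρ (V5 i) (A5 i) w = (((AA (1 : Fin 5) 2 3 4).card : ℕ) : ℝ) • w := by
  have hV0 : NS ρ (VV (1 : Fin 5) 2 3 4) w = (4 : ℝ) • w := by
    rw [NS_apply, Finset.sum_congr rfl hV, Finset.sum_const, ← Nat.cast_smul_eq_nsmul ℝ,
      (by decide +kernel : (VV (1 : Fin 5) 2 3 4).card = 4)]
    norm_num
  have hC : ∀ i, NS ρ (C5 i) w = 0 := by
    intro i
    have h1 := NS_prod (ρ := ρ) (prod0 i) (prod0c i) w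
    rw [hA, hV0, map_smul] at h1
    exact (smul_eq_zero.mp h1.symm).resolve_left (by norm_num)
  have hAi : ∀ i, NS ρ (A5 i) w = 0 := by
    intro i
    rw [NS_prod (ρ := ρ) (prod1 i) (prod1c i) w, hC, map_zero]
  have hT : ∀ i, NS ρ (T5 i) w = 0 := by
    intro i
    rw [NS_prod (ρ := ρ) (prod2 i) (prod2c i) w, hC, map_zero]
  have hVi : ∀ i, NS ρ (V5 i) w = w + ∑ g ∈ (V5 i).erase 1, ρ g w := by
    intro i
    rw [NS_apply, ← Finset.add_sum_erase _ _ (cl5V i).one, map_one]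
    rfl
  have hsum : ∑ i, ∑ g ∈ (V5 i).erase 1, ρ g w = 0 := by
    rw [← Finset.sum_biUnion (fun i _ j _ hij => disjV i j hij), ← uni5,
      Finset.sum_biUnion (fun i _ j _ hij => disjT i j hij)]
    refine Finset.sum_eq_zero fun i _ => ?_
    rw [← NS_apply, hT]
  have h12 : (AA (1 : Fin 5) 2 3 4).card = 12 := by decide +kernel
  rw [h12]
  simp_rw [EE_apply, hAi, sub_zero, hVi]
  rw [← Finset.smul_sum, Finset.sum_add_distrib, hsum, add_zero, Finset.sum_const,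
    ← Nat.cast_smul_eq_nsmul ℝ, smul_smul]
  congr 1
  simp
  norm_num

/-- list version of the Klein group -/
def VL {m : ℕ} (a b c d : Fin m) : List (Perm (Fin m)) :=
  [1, swap a b * swap c d, swap a c * swap b d, swap a d * swap b c]

/-- list version of the alternating group -/
def AL {m : ℕ} (a b c d : Fin m) : List (Perm (Fin m)) :=
  [1, swap a b * swap c d, swap a c * swap b d, swap a d * swap b c,
    swap a b * swap b c, swap b c * swap a b, swap a b * swap b d, swap b d * swap a b,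
    swap a c * swap c d, swap c d * swap a c, swap b c * swap c d, swap c d * swap b c]

/-- `QQ` as the value at `3 N_V - N_A` -/
theorem QQ_eq {m : ℕ} (ρ : Perm (Fin m) →* (W →ₗ[ℝ] W)) (hρ : Uni ρ) (v : W) (a b c d : Fin m)
    (h1 : (VL a b c d).Nodup) (h2 : (AL a b c d).Nodup) :
    QQ (mc ρ v) a b c d = ⟪EE ρ (VV a b c d) (AA a b c d) v, v⟫_ℝ := by
  have e1 : VV a b c d = (VL a b c d).toFinset := by simp [VV, VL]
  have e2 : AA a b c d = (AL a b c d).toFinset := by simp [AA, AL]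
  rw [EE_apply, inner_sub_left, real_inner_smul_left, NS_apply, NS_apply, sum_inner, sum_inner,
    e1, e2, List.sum_toFinset _ h1, List.sum_toFinset _ h2]
  have hi : ∀ x y z w : Fin m, ⟪ρ (swap z w * swap x y) v, v⟫_ℝ =
      ⟪ρ (swap x y * swap z w) v, v⟫_ℝ := by
    intro x y z w
    have := hρ.mc_inv v (swap z w * swap x y)
    rw [mul_inv_rev, swap_inv, swap_inv] at this
    exact this.symm
  simp only [VL, AL, List.map_cons, List.map_nil, List.sum_cons, List.sum_nil, QQ, mc]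
  rw [hi a b b c, hi a b b d, hi a c c d, hi b c c d]
  ring

end Q289.OC
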