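import Pool.Agent.Q289.OC.Five2

/-!
# The inequality for five points: general embedding
-/

set_option autoImplicit false

namespace Q289.OC

open Equiv Finset
open scoped InnerProductSpace

variable {W : Type} [NormedAddCommGroup W] [InnerProductSpace ℝ W]

theorem via_swap {m n : ℕ} (f : Fin m ↪ Fin n) (a b : Fin m) :
    Perm.viaEmbeddingHom f (swap a b) = swap (f a) (f b) := by
  rw [Perm.viaEmbeddingHom_apply]
  ext x
  congr 1
  by_cases hx : x ∈ Set.range f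
  · obtain ⟨y, rfl⟩ := hx
    rw [Perm.viaEmbedding_apply, ← f.injective.swap_apply]
  · rw [Perm.viaEmbedding_apply_of_notMem _ _ _ hx, swap_apply_of_ne_of_ne]
    · rintro rfl; exact hx ⟨a, rfl⟩
    · rintro rfl; exact hx ⟨b, rfl⟩

/-- pulling back a representation -/
noncomputable def pull {m n : ℕ} (f : Fin m ↪ Fin n) (ρ : Perm (Fin n) →* (W →ₗ[ℝ] W)) :
    Perm (Fin m) →* (W →ₗ[ℝ] W) := ρ.comp (Perm.viaEmbeddingHom f)

theorem pull_uni {m n : ℕ} (f : Fin m ↪ Fin n) {ρ : Perm (Fin n) →* (W →ₗ[ℝ] W)} (hρ : Uni ρ) :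
    Uni (pull f ρ) := fun _ v w => hρ _ v w

theorem pull_mc {m n : ℕ} (f : Fin m ↪ Fin n) (ρ : Perm (Fin n) →* (W →ₗ[ℝ] W)) (v : W)
    (g : Perm (Fin m)) : mc (pull f ρ) v g = mc ρ v (Perm.viaEmbeddingHom f g) := rfl

theorem pull_QQ {m n : ℕ} (f : Fin m ↪ Fin n) (ρ : Perm (Fin n) →* (W →ₗ[ℝ] W)) (v : W)
    (a b c d : Fin m) : QQ (mc (pull f ρ) v) a b c d = QQ (mc ρ v) (f a) (f b) (f c) (f d) := by
  simp only [QQ, pull_mc, map_mul, via_swap, map_one]

/-- positivity on four points and the inequality for five points -/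
theorem fiveStm : FiveStm := by
  intro n W _ _ ρ hρ v
  constructor
  · intro i j k l h
    obtain ⟨h1, h2, h3, h4, h5, h6⟩ := h
    let f : Fin 4 ↪ Fin n := ⟨![i, j, k, l], by
      intro a b hab
      fin_cases a <;> fin_cases b <;> simp_all⟩
    have h7 := pull_QQ f ρ v 0 1 2 3
    have h8 : QQ (mc (pull f ρ) v) 0 1 2 3 = QQ (mc ρ v) i j k l := h7
    rw [← h8, QQ_eq (pull f ρ) (pull_uni f hρ) v 0 1 2 3 (by decide +kernel) (by decide +kernel)]
    exact EE_nonneg (pull_uni f hρ) clV4 clA4 (by decide +kernel) (by decide +kernel) v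
  · intro o i j k l h g1 g2 g3 g4
    obtain ⟨h1, h2, h3, h4, h5, h6⟩ := h
    let f : Fin 5 ↪ Fin n := ⟨![o, i, j, k, l], by
      intro a b hab
      fin_cases a <;> fin_cases b <;> simp_all⟩
    have hu := pull_uni f hρ
    have e0 : QQ (mc (pull f ρ) v) 1 2 3 4 = QQ (mc ρ v) i j k l := pull_QQ f ρ v 1 2 3 4
    have e1 : QQ (mc (pull f ρ) v) 0 2 3 4 = QQ (mc ρ v) o j k l := pull_QQ f ρ v 0 2 3 4
    have e2 : QQ (mc (pull f ρ) v) 1 0 3 4 = QQ (mc ρ v) i o k l := pull_QQ f ρ v 1 0 3 4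
    have e3 : QQ (mc (pull f ρ) v) 1 2 0 4 = QQ (mc ρ v) i j o l := pull_QQ f ρ v 1 2 0 4
    have e4 : QQ (mc (pull f ρ) v) 1 2 3 0 = QQ (mc ρ v) i j k o := pull_QQ f ρ v 1 2 3 0
    rw [← e0, ← e1, ← e2, ← e3, ← e4,
      QQ_eq _ hu v 1 2 3 4 (by decide +kernel) (by decide +kernel),
      QQ_eq _ hu v 0 2 3 4 (by decide +kernel) (by decide +kernel),
      QQ_eq _ hu v 1 0 3 4 (by decide +kernel) (by decide +kernel),
      QQ_eq _ hu v 1 2 0 4 (by decide +kernel) (by decide +kernel),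
      QQ_eq _ hu v 1 2 3 0 (by decide +kernel) (by decide +kernel)]
    have h9 := five_abs hu clV0 clA0 (by decide +kernel) (by decide +kernel) univ V5 A5
      (fun i _ => cl5V i) (fun i _ => cl5A i) (fun i _ => sub5 i) (fun i _ => card5A i)
      (fun w hV hA => five_id (pull f ρ) w hV hA) v
    rw [Fin.sum_univ_four] at h9
    exact h9

end Q289.OC
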