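import Pool.Agent.Q289.OC.Defs

/-!
# Interchange process versus random walk: statements of the lemmas
-/

set_option autoImplicit false

namespace Q289.OC

open Equiv Finset
open scoped InnerProductSpace

/-- positivity on four points and the inequality for five points -/
def FiveStm : Prop :=
  ∀ (n : ℕ) (W : Type) [NormedAddCommGroup W] [InnerProductSpace ℝ W]
    (ρ : Perm (Fin n) →* (W →ₗ[ℝ] W)), Uni ρ → ∀ v : W,
    (∀ i j k l : Fin n, dist4 i j k l → 0 ≤ QQ (mc ρ v) i j k l) ∧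
    (∀ o i j k l : Fin n, dist4 i j k l → o ≠ i → o ≠ j → o ≠ k → o ≠ l →
      QQ (mc ρ v) i j k l ≤ QQ (mc ρ v) o j k l + QQ (mc ρ v) i o k l + QQ (mc ρ v) i j o l +
        QQ (mc ρ v) i j k o)

/-- the algebraic identity behind the octopus inequality -/
def SumStm : Prop :=
  ∀ (n : ℕ) (W : Type) [NormedAddCommGroup W] [InnerProductSpace ℝ W]
    (ρ : Perm (Fin n) →* (W →ₗ[ℝ] W)), Uni ρ → ∀ (v : W) (c : Fin n → ℝ), ∑ i, c i = 0 →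
    ∑ i, ∑ j, ∑ k, ∑ l, (if dist4 i j k l then c i * c j * c k * c l * QQ (mc ρ v) i j k l else 0) =
      6 * ‖∑ i, ∑ j, (c i * c j) • ρ (swap i j) v‖ ^ 2 -
        12 * (∑ i, c i ^ 2) * ∑ i, ∑ j, c i * c j * mc ρ v (swap i j)

/-- the octopus inequality of Caputo, Liggett and Richthammer -/
def OctStm : Prop :=
  ∀ (n : ℕ) (W : Type) [NormedAddCommGroup W] [InnerProductSpace ℝ W]
    (ρ : Perm (Fin n) →* (W →ₗ[ℝ] W)), Uni ρ → ∀ (v : W) (o : Fin n) (b : Fin n → ℝ),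
    (∀ i, 0 ≤ b i) → b o = 0 →
    ∑ i, ∑ j, b i * b j * DD ρ v i j ≤ 2 * (∑ i, b i) * ∑ i, b i * DD ρ v o i

/-- elimination of the vertices outside `S` -/
def ElimStm : Prop :=
  ∀ (n : ℕ) (K G : Matrix (Fin n) (Fin n) ℝ), MM K → K * G = 1 → ∀ S : Finset (Fin n),
    ∃ R : Matrix (Fin n) (Fin n) ℝ,
      (∀ x y, R x y = R y x) ∧
      (∀ x ∈ S, ∀ y ∈ S, x ≠ y → R x y ≤ 0) ∧
      (∀ x ∈ S, 0 < ∑ y ∈ S, R x y) ∧
      (∀ x ∈ S, ∀ w ∈ S, ∑ y ∈ S, R x y * G y w = if x = w then 1 else 0) ∧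
      (∀ (W : Type) [NormedAddCommGroup W] [InnerProductSpace ℝ W]
        (ρ : Perm (Fin n) →* (W →ₗ[ℝ] W)), Uni ρ → ∀ v : W,
        ∑ x ∈ S, ∑ y ∈ S, -R x y * DD ρ v x y ≤ ∑ x, ∑ y, -K x y * DD ρ v x y)

/-- the inverse of an M-matrix -/
def PosStm : Prop :=
  ∀ (n : ℕ) (K : Matrix (Fin n) (Fin n) ℝ), MM K →
    ∃ G : Matrix (Fin n) (Fin n) ℝ, K * G = 1 ∧ G * K = 1 ∧ (∀ x y, G x y = G y x) ∧
      (∀ x y, 0 ≤ G x y) ∧ (∀ x, 0 < G x x)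

/-- the rates of the trace process on `S` -/
def TraceStm : Prop :=
  ∀ (n : ℕ) (K G : Matrix (Fin n) (Fin n) ℝ), MM K → K * G = 1 → (∀ x y, G x y = G y x) →
    (∀ x y, 0 ≤ G x y) → (∀ x, 0 < G x x) → ∀ S : Finset (Fin n),
    ∃ r : Fin n → Fin n → ℝ, (∀ x y, 0 ≤ r x y) ∧
      (∀ x ∈ S, ∀ y ∈ S, x ≠ y →
        (G x y - ∑ z ∈ (S.erase x).erase y, G x z * G z y / G z z) / (G x x * G y y) ≤ r x y) ∧
      (∀ (W : Type) [NormedAddCommGroup W] [InnerProductSpace ℝ W]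
        (ρ : Perm (Fin n) →* (W →ₗ[ℝ] W)), Uni ρ → ∀ v : W,
        ∑ x ∈ S, ∑ y ∈ S, r x y * DD ρ v x y ≤ ∑ x, ∑ y, -K x y * DD ρ v x y)

/-- random sets -/
def WtStm : Prop :=
  ∀ (n : ℕ) (q : Fin n → ℝ), (∀ x, 0 ≤ q x) → (∀ x, q x ≤ 1) →
    (∀ S, 0 ≤ wt q S) ∧
    (∀ T : Finset (Fin n), ∑ S ∈ univ.filter (fun S => T ⊆ S), wt q S = ∏ x ∈ T, q x)

/-- the comparison with rates given by the Green function -/
def RandStm : Prop :=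
  ∀ (n : ℕ) (K G : Matrix (Fin n) (Fin n) ℝ) (θ a : ℝ), MM K → K * G = 1 →
    (∀ x y, G x y = G y x) → (∀ x y, 0 ≤ G x y) → (∀ x, 0 < G x x) →
    0 < θ → 0 < a → (∀ x, a * θ * G x x ≤ 1) →
    ∀ (W : Type) [NormedAddCommGroup W] [InnerProductSpace ℝ W]
      (ρ : Perm (Fin n) →* (W →ₗ[ℝ] W)), Uni ρ → ∀ v : W,
      ∑ x, ∑ y, a ^ 2 * θ ^ 2 * max 0 (G x y - a * θ * ∑ z, G x z * G z y) * DD ρ v x y ≤
        ∑ x, ∑ y, -K x y * DD ρ v x y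

/-- facts on the random walk which is mixed at time `t` -/
def HeatStm : Prop :=
  ∀ (n : ℕ) (c : Fin n → Fin n → ℝ) (t : ℝ), 2 ≤ n → (∀ x y, 0 ≤ c x y) →
    (∀ x y, c x y = c y x) → 0 < t →
    (∀ x, (1 / 2 : ℝ) * ∑ y, |NormedSpace.exp (t • rwGen c) x y - 1 / n| ≤ 1 / 4) →
    MM ((1 / t : ℝ) • (1 : Matrix (Fin n) (Fin n) ℝ) - rwGen c) ∧
    ∀ G : Matrix (Fin n) (Fin n) ℝ,
      ((1 / t : ℝ) • (1 : Matrix (Fin n) (Fin n) ℝ) - rwGen c) * G = 1 →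
      (∀ x y, G x y = G y x) → (∀ x y, 0 ≤ G x y) →
      (∀ x, ∑ y, G x y = t) ∧ (∀ x y, Real.exp (-2) / 4 * (t / n) ≤ G x y)

/-- all pairs from the good pairs -/
def BridgeStm : Prop :=
  ∀ (n : ℕ) (W : Type) [NormedAddCommGroup W] [InnerProductSpace ℝ W]
    (ρ : Perm (Fin n) →* (W →ₗ[ℝ] W)), Uni ρ → ∀ (v : W) (h : Fin n → Fin n → ℝ) (T : ℝ),
    0 < T → (∀ x y, 0 ≤ h x y) → (∀ x y, h x y = h y x) → (∀ x, ∑ y, h x y ≤ T) →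
    ∑ x, ∑ y, DD ρ v x y ≤
      8 * ∑ x, ∑ y, (if h x y ≤ 4 * T / n then 1 else 0) * DD ρ v x y

/-- the comparison of the interchange process with random transpositions -/
def CompStm : Prop :=
  ∃ κ : ℝ, 0 < κ ∧ ∀ (n : ℕ) (c : Fin n → Fin n → ℝ) (t : ℝ), 2 ≤ n → (∀ x y, 0 ≤ c x y) →
    (∀ x y, c x y = c y x) → 0 < t →
    (∀ x, (1 / 2 : ℝ) * ∑ y, |NormedSpace.exp (t • rwGen c) x y - 1 / n| ≤ 1 / 4) →
    ∀ (W : Type) [NormedAddCommGroup W] [InnerProductSpace ℝ W]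
      (ρ : Perm (Fin n) →* (W →ₗ[ℝ] W)), Uni ρ → ∀ v : W,
      κ / t * ((1 / n) * ∑ x, ∑ y, DD ρ v x y) ≤ ∑ x, ∑ y, c x y * DD ρ v x y

/-- return probabilities of the interchange process from a comparison with random
transpositions -/
def LevStm : Prop :=
  ∀ (n : ℕ) (c : Fin n → Fin n → ℝ) (κ t p : ℝ), 2 ≤ n → (∀ x y, c x y = c y x) → 0 < κ →
    0 ≤ t → 0 < p → n * p ≤ 1 / 2 → Real.exp (-(t * κ / 4)) ≤ p / 2 →
    (∀ (W : Type) [NormedAddCommGroup W] [InnerProductSpace ℝ W]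
      (ρ : Perm (Fin n) →* (W →ₗ[ℝ] W)), Uni ρ → ∀ v : W,
      κ * ((1 / n) * ∑ x, ∑ y, DD ρ v x y) ≤ ∑ x, ∑ y, c x y * DD ρ v x y) →
    ∀ σ : Perm (Fin n), (n.factorial : ℝ) * NormedSpace.exp (t • ipGen c) σ σ ≤
      Real.exp (n ^ 2 * p)

/-- total variation from the return probability -/
def TVStm : Prop :=
  ∀ (n : ℕ) (c : Fin n → Fin n → ℝ) (t : ℝ), (∀ x y, 0 ≤ c x y) → (∀ x y, c x y = c y x) →
    0 ≤ t → ∀ σ : Perm (Fin n),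
    ((1 / 2 : ℝ) * ∑ τ, |NormedSpace.exp (t • ipGen c) σ τ - 1 / (n.factorial : ℝ)|) ^ 2 ≤
      (1 / 4) * ((n.factorial : ℝ) * NormedSpace.exp ((2 * t) • ipGen c) σ σ - 1)

/-- mixing of the interchange process -/
def MixStm : Prop :=
  ∃ C : ℝ, 0 < C ∧ ∀ (n : ℕ) (c : Fin n → Fin n → ℝ) (t : ℝ), 2 ≤ n → (∀ x y, 0 ≤ c x y) →
    (∀ x y, c x y = c y x) → 0 < t →
    (∀ x, (1 / 2 : ℝ) * ∑ y, |NormedSpace.exp (t • rwGen c) x y - 1 / n| ≤ 1 / 4) →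
    ∀ σ : Perm (Fin n),
      (1 / 2 : ℝ) * ∑ τ, |NormedSpace.exp ((C * t * Real.log n) • ipGen c) σ τ -
        1 / (n.factorial : ℝ)| ≤ 1 / 4

end Q289.OC
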