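import Pool.Agent.Q289.OC.Chain

/-!
# From permutations of `Fin n` to a general vertex set
-/

set_option autoImplicit false

namespace Q289.OC.Ch

open Equiv Finset

variable {n : ℕ}

/-- rates of the interchange process on `Perm (Fin n)` -/
noncomputable def ipRate' (c : Fin n → Fin n → ℝ) (σ τ : Perm (Fin n)) : ℝ :=
  (1 / 2 : ℝ) * ∑ u, ∑ v, if τ = σ * swap u v then c u v else 0

theorem ipGen_eq (c : Fin n → Fin n → ℝ) : generator (ipRate' c) = ipGen c := by
  ext σ τ
  rw [generator, ipGen, Matrix.of_apply, Matrix.of_apply]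
  by_cases h : σ = τ
  · subst h
    rw [if_pos rfl]
    have h1 : ∑ z ∈ univ.erase σ, ipRate' c σ z = (∑ z, ipRate' c σ z) - ipRate' c σ σ := by
      rw [← Finset.add_sum_erase univ _ (mem_univ σ)]; ring
    have h2 : ∑ z, ipRate' c σ z = (1 / 2 : ℝ) * ∑ u, ∑ v, c u v := by
      simp only [ipRate']
      rw [← Finset.mul_sum, Finset.sum_comm]
      congr 1
      refine Finset.sum_congr rfl fun u _ => ?_
      rw [Finset.sum_comm]
      refine Finset.sum_congr rfl fun v _ => ?_
      rw [Finset.sum_ite_eq' univ (σ * swap u v) fun _ => c u v, if_pos (mem_univ _)]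
    rw [h1, h2, ipRate', ← mul_sub, ← mul_neg, ← Finset.sum_sub_distrib, ← Finset.sum_neg_distrib]
    congr 1
    refine Finset.sum_congr rfl fun u _ => ?_
    rw [← Finset.sum_sub_distrib, ← Finset.sum_neg_distrib]
    refine Finset.sum_congr rfl fun v _ => ?_
    rw [if_pos rfl]
    split_ifs <;> ring
  · rw [if_neg h, ipRate']
    congr 1
    refine Finset.sum_congr rfl fun u _ => Finset.sum_congr rfl fun v _ => ?_
    rw [if_neg (fun h' : τ = σ => h h'.symm), sub_zero]
    split_ifs <;> ring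

variable {V : Type} [Fintype V] [DecidableEq V]

/-- transport of the labellings -/
noncomputable def tr (e : V ≃ Fin (Fintype.card V)) :
    (V ≃ Fin (Fintype.card V)) ≃ Perm (Fin (Fintype.card V)) :=
  Equiv.equivCongr e (Equiv.refl _)

theorem ip_tr (e : V ≃ Fin (Fintype.card V)) (c : V → V → ℝ) (σ τ : V ≃ Fin (Fintype.card V)) :
    ipRate' (fun i j => c (e.symm i) (e.symm j)) (tr e σ) (tr e τ) = ipRate c σ τ := by
  rw [ipRate', ipRate, ← e.sum_comp]
  congr 1
  refine Finset.sum_congr rfl fun u _ => ?_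
  rw [← e.sum_comp]
  refine Finset.sum_congr rfl fun v _ => ?_
  rw [e.symm_apply_apply, e.symm_apply_apply]
  have h1 : tr e σ * swap (e u) (e v) = tr e ((swap u v).trans σ) := by
    ext x
    congr 1
    show σ (e.symm (swap (e u) (e v) x)) = σ (swap u v (e.symm x))
    congr 1
    rw [Equiv.symm_apply_eq, e.injective.map_swap, e.apply_symm_apply]
  rw [h1]
  congr 1
  exact propext ⟨fun h => (tr e).injective h, fun h => by rw [h]⟩

/-- the mixing bound for a general vertex set -/
theorem tmix_le (hM : MixStm) : ∃ C : ℝ, 0 < C ∧ ∀ (V : Type) [Fintype V] [DecidableEq V]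
    (c : V → V → ℝ), (∀ x y, 0 ≤ c x y) → (∀ x y, c x y = c y x) → 2 ≤ Fintype.card V →
    tmix (ipRate c) ≤ ENNReal.ofReal (C * Real.log (Fintype.card V)) * tmix (rwRate c) := by
  obtain ⟨C, hC, hM⟩ := hM
  refine ⟨C, hC, ?_⟩
  intro V _ _ c hc hcs hV
  set n := Fintype.card V with hn
  let e : V ≃ Fin (Fintype.card V) := Fintype.equivFin V
  set c' : Fin (Fintype.card V) → Fin (Fintype.card V) → ℝ :=
    fun i j => c (e.symm i) (e.symm j) with hc'
  have hlog : 0 < Real.log n := Real.log_pos (by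
    have : (2 : ℝ) ≤ n := by exact_mod_cast hV
    linarith)
  have hCn : 0 < C * Real.log n := by positivity
  -- each admissible time
  have key : ∀ s ∈ {s : ENNReal | ∃ t : ℝ, 0 ≤ t ∧ (∀ x, tv (rwRate c) t x ≤ 1 / 4) ∧
      s = ENNReal.ofReal t}, tmix (ipRate c) ≤ ENNReal.ofReal (C * Real.log n) * s := by
    rintro s ⟨t, ht, hmix, rfl⟩
    have ht0 := mixed_pos (rwRate c) hV ht hmix
    have h1 : ∀ x, (1 / 2 : ℝ) * ∑ y, |NormedSpace.exp (t • rwGen c') x y -
        1 / ((Fintype.card V : ℕ) : ℝ)| ≤ 1 / 4 := by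
      intro x'
      obtain ⟨x, rfl⟩ := e.surjective x'
      have h2 := tv_equiv e (rwRate c) (rwRate c') (fun x y => by
        simp only [rwRate, hc', e.symm_apply_apply]) t x
      have h3 := hmix x
      rw [← h2, tv, Fintype.card_fin] at h3
      exact h3
    have h2 := hM (Fintype.card V) c' t hV (fun x y => hc _ _) (fun x y => hcs _ _) ht0 h1
    have h3 : ∀ σ, tv (ipRate c) (C * t * Real.log n) σ ≤ 1 / 4 := by
      intro σ
      rw [← tv_equiv (tr e) (ipRate c) (ipRate' c') (fun σ τ => ip_tr e c σ τ), tv,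
        Fintype.card_perm, Fintype.card_fin]
      have h4 := h2 (tr e σ)
      rw [← ipGen_eq] at h4
      exact h4
    have h4 : tmix (ipRate c) ≤ ENNReal.ofReal (C * t * Real.log n) :=
      sInf_le ⟨C * t * Real.log n, by positivity, h3, rfl⟩
    refine h4.trans (le_of_eq ?_)
    rw [← ENNReal.ofReal_mul hCn.le]
    congr 1
    ring
  rw [mul_comm, ← ENNReal.div_le_iff_le_mul (Or.inl (by
    rw [ne_eq, ENNReal.ofReal_eq_zero, not_le]; exact hCn)) (Or.inl ENNReal.ofReal_ne_top)]
  refine le_sInf fun s hs => ?_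
  rw [ENNReal.div_le_iff_le_mul (Or.inl (by
    rw [ne_eq, ENNReal.ofReal_eq_zero, not_le]; exact hCn)) (Or.inl ENNReal.ofReal_ne_top),
    mul_comm]
  exact key s hs

end Q289.OC.Ch
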